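import Pool.Agent.Y671.GL.Spec2
import Pool.Agent.W356.SD.C1

set_option autoImplicit false

/-!
# GC1: Markov's inequality for good heights

(helper157, for the project of helper671; port of Pool.Agent.W356.SD.C1.)
-/

namespace Pool.Agent.Y157.GL

open Complex MeasureTheory Set Filter Topology
open Pool.Agent.Y671.GL
open Pool.Agent.W356.SD (markov3 shift_bound)

theorem gc1 : S_GC1 := by
  intro Z M hZ hM h1 h2 η ε hη hε
  obtain ⟨θ1, hθ1p, hθ1l, h1⟩ := h1
  obtain ⟨θ2, hθ2p, hθ2l, h2⟩ := h2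
  set θ := min (min θ1 θ2) (ε / 1000) with hθ
  have hθ0 : 0 < θ := by positivity
  have hθa : θ ≤ θ1 := (min_le_left _ _).trans (min_le_left _ _)
  have hθb : θ ≤ θ2 := (min_le_left _ _).trans (min_le_right _ _)
  have hθ1 : θ ≤ 1 / 200 := hθa.trans hθ1l
  have hθ2 : θ ≤ ε / 1000 := min_le_right _ _
  obtain ⟨C1, T1, hC1, hT1, H1⟩ := h1 θ hθ0 hθa
  obtain ⟨C2, T2, hC2, hT2, H2⟩ := h2 θ hθ0 hθb
  have hZc : Continuous Z := hZ.continuous
  set K := (1 + 4800 / ε) ^ 20 with hK
  have hK0 : 0 < K := by positivity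
  refine ⟨θ, min (θ / 4000) (ε / 2), 1800 * C1 / η + 1800 * C2 * K, 1, max T1 T2, hθ0, hθ1,
    by positivity, by positivity, le_rfl, hT1.trans (le_max_left _ _), ?_⟩
  intro T r hT ha hr1
  set c := min (θ / 4000) (ε / 2) with hc
  have hTT1 : T1 ≤ T := (le_max_left _ _).trans hT
  have hTT2 : T2 ≤ T := (le_max_right _ _).trans hT
  have hT2' : 2 ≤ T := hT1.trans hTT1
  have hT0 : 0 < T := by linarith
  have hL0 : 0 < Real.log T := Real.log_pos (by linarith)
  set a := r * Real.log T with hr_eq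
  have hr0 : 0 < r := by
    by_contra h
    have : r * Real.log T ≤ 0 := mul_nonpos_of_nonpos_of_nonneg (not_lt.1 h) hL0.le
    linarith
  -- first condition
  have B1 : volume {t : ℝ | T / 2 ≤ t ∧ t ≤ 3 * T ∧ η * r ^ 2 < ∫ x in (r / 4000)..(30 * r),
      ∫ y in (-(30 * r))..(30 * r),
      ‖Z (1 / 2 + x + (t + y) * I) * M θ T (1 / 2 + x + (t + y) * I) - 1‖ ^ 2} ≤
      ENNReal.ofReal ((30 * r - r / 4000) * (2 * (30 * r)) * (C1 * T * Real.exp (-(θ * a / 4000))) /
        (η * r ^ 2)) := by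
    apply markov3 (fun x y t : ℝ => ‖Z (1 / 2 + x + (t + y) * I) *
      M θ T (1 / 2 + x + (t + y) * I) - 1‖ ^ 2)
    · apply Measurable.pow_const
      apply Measurable.norm
      apply Measurable.sub_const
      have hl : Measurable fun p : ℝ × ℝ × ℝ => (1 / 2 + (p.1 : ℂ) + ((p.2.2 : ℂ) + (p.2.1 : ℂ)) * I) := by
        fun_prop
      exact (hZc.measurable.comp hl).mul ((hM θ T).continuous.measurable.comp hl)
    · linarith
    · positivity
    · positivity
    · positivity
    · intro x hx y hy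
      have hx0 : 0 < x := by linarith [hx.1]
      have hx1 : x ≤ 3 / 10 := by linarith [hx.2]
      have hy1 : |y| ≤ 3 / 10 := by
        rw [abs_le]; constructor <;> linarith [hy.1, hy.2]
      have hb := H1 T (1 / 2 + x) hTT1 (by linarith) (by linarith)
      have hbM : ∫ t in (T / 4)..(4 * T), ‖Z (((1 / 2 + x : ℝ) : ℂ) + t * I) *
          M θ T (((1 / 2 + x : ℝ) : ℂ) + t * I) - 1‖ ^ 2 ≤ C1 * T * Real.exp (-(θ * a / 4000)) := by
        refine hb.trans ?_
        gcongr
        have e1 : θ * a / 4000 = θ * (r / 4000 * Real.log T) := by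
          rw [hr_eq]; ring
        have e2 : (1 / 2 + x - 1 / 2 : ℝ) = x := by ring
        rw [e1, e2, mul_assoc]
        have := hx.1.le
        gcongr
      have hcont : ContinuousOn (fun t : ℝ => ‖Z (((1 / 2 + x : ℝ) : ℂ) + t * I) *
          M θ T (((1 / 2 + x : ℝ) : ℂ) + t * I) - 1‖ ^ 2) (Icc (T / 4) (4 * T)) := by
        refine (((((hZc.comp (show Continuous fun t : ℝ => (((1 / 2 + x : ℝ) : ℂ) + t * I) by fun_prop)).continuousOn).mul ?_).sub continuousOn_const).norm).pow 2
        exact ((hM θ T).continuous.comp (by fun_prop)).continuousOn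
      have := shift_bound (fun t : ℝ => ‖Z (((1 / 2 + x : ℝ) : ℂ) + t * I) *
          M θ T (((1 / 2 + x : ℝ) : ℂ) + t * I) - 1‖ ^ 2) T y _ hT2' hy1 hcont
          (fun t => by positivity) hbM
      refine le_trans (le_of_eq ?_) this
      refine lintegral_congr fun t => ?_
      push_cast
      rfl
  -- second condition
  have B2 : volume {t : ℝ | T / 2 ≤ t ∧ t ≤ 3 * T ∧ Real.exp (ε * a) * r ^ 2 < ∫ x in (0 : ℝ)..(30 * r),
      ∫ y in (-(30 * r))..(30 * r),
      ‖Z (1 / 2 + x + (t + y) * I) * M θ T (1 / 2 + r + t * I)‖ ^ 2} ≤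
      ENNReal.ofReal ((30 * r - 0) * (2 * (30 * r)) *
        (C2 * T * (1 + 60 * a) ^ 20 * Real.exp (120 * θ * a)) /
        (Real.exp (ε * a) * r ^ 2)) := by
    apply markov3 (fun x y t : ℝ => ‖Z (1 / 2 + x + (t + y) * I) *
      M θ T (1 / 2 + r + t * I)‖ ^ 2)
    · apply Measurable.pow_const
      apply Measurable.norm
      have hl : Measurable fun p : ℝ × ℝ × ℝ => (1 / 2 + (p.1 : ℂ) + ((p.2.2 : ℂ) + (p.2.1 : ℂ)) * I) := by
        fun_prop
      have hl2 : Measurable fun p : ℝ × ℝ × ℝ => (1 / 2 + (r : ℂ) + (p.2.2 : ℂ) * I) := by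
        fun_prop
      exact (hZc.measurable.comp hl).mul ((hM θ T).continuous.measurable.comp hl2)
    · linarith
    · positivity
    · positivity
    · positivity
    · intro x hx y hy
      have hx0 : 0 < x := hx.1
      have hx1 : x ≤ 3 / 10 := by linarith [hx.2]
      have hy1 : |y| ≤ 3 / 10 := by
        rw [abs_le]; constructor <;> linarith [hy.1, hy.2]
      set β : ℂ := ((r - x : ℝ) : ℂ) - (y : ℂ) * I with hβ
      have hβn : ‖β‖ ≤ 60 * r := by
        calc ‖β‖ ≤ ‖((r - x : ℝ) : ℂ)‖ + ‖(y : ℂ) * I‖ := norm_sub_le _ _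
          _ = |r - x| + |y| := by
              rw [norm_mul, Complex.norm_I, mul_one, Complex.norm_real, Complex.norm_real,
                Real.norm_eq_abs, Real.norm_eq_abs]
          _ ≤ 30 * r + 30 * r := by
              gcongr
              · rw [abs_le]; constructor <;> linarith [hx.2]
              · rw [abs_le]; constructor <;> linarith [hy.1, hy.2]
          _ = 60 * r := by ring
      have hb := H2 T (1 / 2 + x) β hTT2 (by linarith) (by linarith) (by linarith)
      have hLβ : Real.log T * ‖β‖ ≤ 60 * a := by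
        calc Real.log T * ‖β‖ ≤ Real.log T * (60 * r) := by gcongr
          _ = 60 * (r * Real.log T) := by ring
          _ = 60 * a := by rw [hr_eq]
      have hbM : ∫ t in (T / 4)..(4 * T), ‖Z (((1 / 2 + x : ℝ) : ℂ) + t * I) *
          M θ T (((1 / 2 + x : ℝ) : ℂ) + t * I + β)‖ ^ 2 ≤
          C2 * T * (1 + 60 * a) ^ 20 * Real.exp (120 * θ * a) := by
        refine hb.trans ?_
        have hβ0 : 0 ≤ Real.log T * ‖β‖ := by positivity
        have e1 : 2 * θ * Real.log T * ‖β‖ ≤ 120 * θ * a := by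
          calc 2 * θ * Real.log T * ‖β‖ = 2 * θ * (Real.log T * ‖β‖) := by ring
            _ ≤ 2 * θ * (60 * a) := by gcongr
            _ = 120 * θ * a := by ring
        gcongr
      have hcont : ContinuousOn (fun t : ℝ => ‖Z (((1 / 2 + x : ℝ) : ℂ) + t * I) *
          M θ T (((1 / 2 + x : ℝ) : ℂ) + t * I + β)‖ ^ 2) (Icc (T / 4) (4 * T)) := by
        refine ((((hZc.comp (show Continuous fun t : ℝ => (((1 / 2 + x : ℝ) : ℂ) + t * I) by fun_prop)).continuousOn).mul ?_).norm).pow 2
        exact ((hM θ T).continuous.comp (by fun_prop)).continuousOn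
      have := shift_bound (fun t : ℝ => ‖Z (((1 / 2 + x : ℝ) : ℂ) + t * I) *
          M θ T (((1 / 2 + x : ℝ) : ℂ) + t * I + β)‖ ^ 2) T y _ hT2' hy1 hcont
          (fun t => by positivity) hbM
      refine le_trans (le_of_eq ?_) this
      refine lintegral_congr fun t => ?_
      have e2 : (((1 / 2 + x : ℝ) : ℂ) + ((t + y : ℝ) : ℂ) * I + β) = 1 / 2 + r + t * I := by
        rw [hβ]; push_cast; ring
      simp only [e2]
      push_cast
      rfl
  have hsub : {t0 : ℝ | T / 2 ≤ t0 ∧ t0 ≤ 3 * T ∧ ¬ GdM Z (M θ T) η ε a r t0} ⊆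
      {t : ℝ | T / 2 ≤ t ∧ t ≤ 3 * T ∧ η * r ^ 2 < ∫ x in (r / 4000)..(30 * r),
      ∫ y in (-(30 * r))..(30 * r),
      ‖Z (1 / 2 + x + (t + y) * I) * M θ T (1 / 2 + x + (t + y) * I) - 1‖ ^ 2} ∪
      {t : ℝ | T / 2 ≤ t ∧ t ≤ 3 * T ∧ Real.exp (ε * a) * r ^ 2 < ∫ x in (0 : ℝ)..(30 * r),
      ∫ y in (-(30 * r))..(30 * r),
      ‖Z (1 / 2 + x + (t + y) * I) * M θ T (1 / 2 + r + t * I)‖ ^ 2} := by
    rintro t ⟨ht1, ht2, ht3⟩
    unfold GdM at ht3
    rw [not_and_or, not_le, not_le] at ht3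
    rcases ht3 with h | h
    · exact Or.inl ⟨ht1, ht2, h⟩
    · exact Or.inr ⟨ht1, ht2, h⟩
  refine (measure_mono hsub).trans ((measure_union_le _ _).trans ((add_le_add B1 B2).trans ?_))
  rw [← ENNReal.ofReal_add]
  · apply ENNReal.ofReal_le_ofReal
    have E1 : (30 * r - r / 4000) * (2 * (30 * r)) * (C1 * T * Real.exp (-(θ * a / 4000))) /
        (η * r ^ 2) ≤ 1800 * C1 / η * T * Real.exp (-(c * a)) := by
      rw [div_le_iff₀ (by positivity)]
      have h1 : (30 * r - r / 4000) * (2 * (30 * r)) ≤ 1800 * r ^ 2 := by nlinarith [sq_nonneg r]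
      have h2 : Real.exp (-(θ * a / 4000)) ≤ Real.exp (-(c * a)) := by
        apply Real.exp_le_exp.mpr
        have : c ≤ θ / 4000 := min_le_left _ _
        nlinarith
      calc (30 * r - r / 4000) * (2 * (30 * r)) * (C1 * T * Real.exp (-(θ * a / 4000)))
          ≤ (1800 * r ^ 2) * (C1 * T * Real.exp (-(c * a))) := by gcongr
        _ = 1800 * C1 / η * T * Real.exp (-(c * a)) * (η * r ^ 2) := by
            field_simp
    have E2 : (30 * r - 0) * (2 * (30 * r)) * (C2 * T * (1 + 60 * a) ^ 20 * Real.exp (120 * θ * a)) /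
        (Real.exp (ε * a) * r ^ 2) ≤ 1800 * C2 * K * T * Real.exp (-(c * a)) := by
      rw [div_le_iff₀ (by positivity)]
      have h1 : (1 + 60 * a) ^ 20 ≤ K * Real.exp (ε * a / 4) := by
        have h3 : 1 + 60 * a ≤ (1 + 4800 / ε) * Real.exp (ε * a / 80) := by
          have h4 : 1 + ε * a / 80 ≤ Real.exp (ε * a / 80) := by
            linarith [Real.add_one_le_exp (ε * a / 80)]
          have h5 : 60 * a = 4800 / ε * (ε * a / 80) := by field_simp; ring
          have h6 : 0 ≤ ε * a / 80 := by positivity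
          have h7 : 0 < 4800 / ε := by positivity
          calc 1 + 60 * a = 1 + 4800 / ε * (ε * a / 80) := by rw [← h5]
            _ ≤ (1 + 4800 / ε) * (1 + ε * a / 80) := by nlinarith
            _ ≤ _ := by gcongr
        calc (1 + 60 * a) ^ 20 ≤ ((1 + 4800 / ε) * Real.exp (ε * a / 80)) ^ 20 := by gcongr
          _ = K * Real.exp (ε * a / 4) := by
              rw [mul_pow, ← Real.exp_nat_mul, hK]
              congr 2
              push_cast; ring
      have h2 : Real.exp (ε * a / 4) * Real.exp (120 * θ * a) ≤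
          Real.exp (-(c * a)) * Real.exp (ε * a) := by
        rw [← Real.exp_add, ← Real.exp_add]
        apply Real.exp_le_exp.mpr
        have h3 : c ≤ ε / 2 := min_le_right _ _
        have h4 : c * a ≤ ε / 2 * a := by gcongr
        have h5 : θ * a ≤ ε / 1000 * a := by gcongr
        nlinarith
      calc (30 * r - 0) * (2 * (30 * r)) * (C2 * T * (1 + 60 * a) ^ 20 * Real.exp (120 * θ * a))
          ≤ (30 * r - 0) * (2 * (30 * r)) * (C2 * T * (K * Real.exp (ε * a / 4)) * Real.exp (120 * θ * a)) := by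
            have : 0 ≤ (30 * r - 0) * (2 * (30 * r)) := by rw [sub_zero]; positivity
            gcongr
        _ = 1800 * C2 * K * T * r ^ 2 * (Real.exp (ε * a / 4) * Real.exp (120 * θ * a)) := by ring
        _ ≤ 1800 * C2 * K * T * r ^ 2 * (Real.exp (-(c * a)) * Real.exp (ε * a)) := by gcongr
        _ = _ := by ring
    calc _ ≤ 1800 * C1 / η * T * Real.exp (-(c * a)) + 1800 * C2 * K * T * Real.exp (-(c * a)) :=
          add_le_add E1 E2
      _ = _ := by ring
  · have : 0 ≤ (30 * r - r / 4000) := by linarith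
    positivity
  · have : 0 ≤ (30 * r - 0) := by linarith
    positivity

end Pool.Agent.Y157.GL
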