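import Pool.Agent.Y671.GL.Spec
import Pool.Agent.W131.SDSMV

set_option autoImplicit false

/-!
# MV1, MV2: mollified mean squares from SAN and the mollifier bounds

(helper157, for the project of helper671; port of Pool.Agent.W131.SDSMV.)
-/

namespace Pool.Agent.Y157.GL

open Complex Filter Topology MeasureTheory Set
open Pool.Agent.H24R2.DZ (MM ph)
open Pool.Agent.Y671.GL
open Pool.Agent.W131.SMV (ph_nonneg ph_le_one ph_one_of ph_zero_of MM_cont)

variable {ps lam : ℕ → ℂ}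

lemma mf_one : mf ps lam 1 = 1 := by
  unfold mf
  simp

lemma bq_one (θ L : ℝ) (β : ℂ) : bq ps lam θ L β 1 = 1 := by
  unfold bq
  have : ph (Real.log ((1 : ℕ) : ℝ) / (θ * L)) = 1 := by
    apply ph_one_of; simp
  rw [this, mf_one]
  simp

lemma bq_zero (θ T : ℝ) (β : ℂ) (hθ : 0 < θ) (hT : 1 < T) (h : ℕ) (hh : yT θ T < h) :
    bq ps lam θ (Real.log T) β h = 0 := by
  unfold bq
  have hL : 0 < Real.log T := Real.log_pos hT
  have h1 : T ^ θ ≤ (h : ℝ) := by
    calc T ^ θ ≤ (yT θ T : ℝ) := Nat.le_ceil _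
      _ ≤ h := by exact_mod_cast hh.le
  have h2 : ph (Real.log h / (θ * Real.log T)) = 0 := by
    apply ph_zero_of
    rw [le_div_iff₀ (by positivity), one_mul, ← Real.log_rpow (by linarith)]
    exact Real.log_le_log (by positivity) h1
  rw [h2]
  simp

lemma cn_zero (hmf : ∀ n : ℕ, 1 ≤ n → ∑ d ∈ n.divisors, mf ps lam d * lam (n / d) =
      if n = 1 then 1 else 0) (θ T : ℝ) (hθ : 0 < θ) (hT : 1 < T) (n : ℕ) (hn : 2 ≤ n)
    (hh : (n : ℝ) ≤ T ^ (θ / 2)) : cn lam (bq ps lam θ (Real.log T) 0) n = 0 := by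
  have hL : 0 < Real.log T := Real.log_pos hT
  unfold cn
  have h1 : ∀ h ∈ n.divisors, bq ps lam θ (Real.log T) 0 h * lam (n / h) =
      mf ps lam h * lam (n / h) := by
    intro h hd
    have hd1 : h ≤ n := Nat.divisor_le hd
    have hpos : 0 < h := Nat.pos_of_mem_divisors hd
    unfold bq
    have h2 : ph (Real.log h / (θ * Real.log T)) = 1 := by
      apply ph_one_of
      rw [div_le_iff₀ (by positivity)]
      have h3 : Real.log h ≤ Real.log (T ^ (θ / 2)) := by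
        apply Real.log_le_log (by exact_mod_cast hpos)
        calc (h : ℝ) ≤ n := by exact_mod_cast hd1
          _ ≤ _ := hh
      rw [Real.log_rpow (by linarith)] at h3
      linarith
    rw [h2]
    simp
  rw [Finset.sum_congr rfl h1, hmf n (by omega), if_neg (by omega)]

lemma norm_bq_le {th C : ℝ} (hth0 : 0 ≤ th) (hth : th < 1 / 2)
    (hmf : ∀ n : ℕ, 1 ≤ n → ‖mf ps lam n‖ ≤ C * (n : ℝ) ^ th) (θ L : ℝ) (β : ℂ) (hβ : ‖β‖ ≤ 1)
    (h : ℕ) (hh : 1 ≤ h) : ‖bq ps lam θ L β h‖ ≤ C * (h : ℝ) ^ 2 := by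
  have hh1 : (1 : ℝ) ≤ h := by exact_mod_cast hh
  have hh0 : (0 : ℝ) < h := by linarith
  have hC : 0 ≤ C := by
    have := (norm_nonneg _).trans (hmf 1 le_rfl)
    simpa using this
  unfold bq
  rw [norm_mul, norm_mul, Complex.norm_natCast_cpow_of_pos (by omega), Complex.norm_real,
    Real.norm_eq_abs, abs_of_nonneg (ph_nonneg _)]
  have h2 : (h : ℝ) ^ (-β).re ≤ (h : ℝ) := by
    have h3 : (-β).re ≤ 1 := by
      have := Complex.abs_re_le_norm (-β)
      rw [norm_neg] at this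
      have := abs_le.mp (this.trans hβ)
      exact this.2
    calc (h : ℝ) ^ (-β).re ≤ (h : ℝ) ^ (1 : ℝ) :=
          Real.rpow_le_rpow_of_exponent_le hh1 h3
      _ = h := Real.rpow_one _
  have h4 : (h : ℝ) ^ th ≤ h := by
    calc (h : ℝ) ^ th ≤ (h : ℝ) ^ (1 : ℝ) :=
          Real.rpow_le_rpow_of_exponent_le hh1 (by linarith)
      _ = h := Real.rpow_one _
  calc ‖mf ps lam h‖ * ph (Real.log h / (θ * L)) * (h : ℝ) ^ (-β).re
      ≤ (C * (h : ℝ)) * 1 * h := by
        apply mul_le_mul _ h2 (by positivity) (by positivity)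
        apply mul_le_mul _ (ph_le_one _) (ph_nonneg _) (by positivity)
        exact (hmf h hh).trans (mul_le_mul_of_nonneg_left h4 hC)
    _ = C * (h : ℝ) ^ 2 := by ring

/-- exponential cut-offs and small powers -/
lemma exp_cut (L x z K : ℝ) (hL : 1 ≤ L) (hx : 1 ≤ x) (hz : 0 ≤ z)
    (h : Real.log x ≤ K * L + z) : Real.exp (-z) ≤ Real.exp K * x ^ (-(1 / L)) := by
  have hx0 : 0 < x := by linarith
  have hL0 : 0 < L := by linarith
  rw [Real.rpow_def_of_pos hx0, ← Real.exp_add]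
  apply Real.exp_le_exp.mpr
  have h1 : Real.log x / L ≤ K + z := by
    rw [div_le_iff₀ hL0]
    nlinarith
  have h2 : Real.log x * -(1 / L) = -(Real.log x / L) := by ring
  rw [h2]
  linarith

lemma first_sum (θ L T' σ E W : ℝ) (β : ℂ) (hT : 0 < T') (hTL : Real.log T' ≤ 3 * L) (hL1 : 1 ≤ L)
    (hE : 0 ≤ E)
    (hcc : ∀ n : ℕ, 2 ≤ n → cn lam (bq ps lam θ L β) n ≠ 0 → (n : ℝ) ^ (-(2 * σ - 1)) ≤ E)
    (hS : ∀ N : ℕ, ∑ n ∈ Finset.Icc 1 N, (n : ℝ) ^ (-(1 + 1 / L)) *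
      ‖cn lam (bq ps lam θ L β) n‖ ^ 2 ≤ W) :
    (∑' n : ℕ, if n ≤ 1 then 0 else
      ‖cn lam (bq ps lam θ L β) n‖ ^ 2 * (n : ℝ) ^ (-(2 * σ)) * Real.exp (-(n / T'))) ≤
      Real.exp 3 * E * W := by
  set f : ℕ → ℝ := fun n => if n ≤ 1 then 0 else
      ‖cn lam (bq ps lam θ L β) n‖ ^ 2 * (n : ℝ) ^ (-(2 * σ)) * Real.exp (-(n / T')) with hf
  have hf0 : ∀ n, 0 ≤ f n := by
    intro n
    simp only [hf]
    split_ifs
    · exact le_rfl
    · positivity
  have hterm : ∀ n : ℕ, 1 ≤ n → f n ≤ Real.exp 3 * E *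
      ((n : ℝ) ^ (-(1 + 1 / L)) * ‖cn lam (bq ps lam θ L β) n‖ ^ 2) := by
    intro n hn
    have hn1 : (1 : ℝ) ≤ n := by exact_mod_cast hn
    have hn0 : (0 : ℝ) < n := by linarith
    simp only [hf]
    split_ifs with h1
    · positivity
    · by_cases hc : cn lam (bq ps lam θ L β) n = 0
      · rw [hc]; simp
      · have h2 := hcc n (by omega) hc
        have h3 : Real.exp (-(n / T')) ≤ Real.exp 3 * (n : ℝ) ^ (-(1 / L)) := by
          apply exp_cut L n (n / T') 3 hL1 hn1 (by positivity)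
          have h4 := Real.log_le_sub_one_of_pos (x := n / T') (by positivity)
          rw [Real.log_div hn0.ne' hT.ne'] at h4
          linarith
        have h4 : (n : ℝ) ^ (-(2 * σ)) = (n : ℝ) ^ (-1 : ℝ) * (n : ℝ) ^ (-(2 * σ - 1)) := by
          rw [← Real.rpow_add hn0]; congr 1; ring
        have h5 : (n : ℝ) ^ (-(1 + 1 / L)) = (n : ℝ) ^ (-1 : ℝ) * (n : ℝ) ^ (-(1 / L)) := by
          rw [← Real.rpow_add hn0]; congr 1; ring
        rw [h4, h5]
        have h6 : (n : ℝ) ^ (-(2 * σ - 1)) * Real.exp (-(n / T')) ≤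
            E * (Real.exp 3 * (n : ℝ) ^ (-(1 / L))) := by
          apply mul_le_mul h2 h3 (Real.exp_pos _).le hE
        calc ‖cn lam (bq ps lam θ L β) n‖ ^ 2 * ((n : ℝ) ^ (-1 : ℝ) * (n : ℝ) ^ (-(2 * σ - 1))) *
              Real.exp (-(n / T'))
            = ‖cn lam (bq ps lam θ L β) n‖ ^ 2 * (n : ℝ) ^ (-1 : ℝ) *
              ((n : ℝ) ^ (-(2 * σ - 1)) * Real.exp (-(n / T'))) := by ring
          _ ≤ ‖cn lam (bq ps lam θ L β) n‖ ^ 2 * (n : ℝ) ^ (-1 : ℝ) *
              (E * (Real.exp 3 * (n : ℝ) ^ (-(1 / L)))) := by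
            apply mul_le_mul_of_nonneg_left h6 (by positivity)
          _ = _ := by ring
  apply Real.tsum_le_of_sum_range_le hf0
  intro N
  calc ∑ i ∈ Finset.range N, f i ≤ ∑ i ∈ insert 0 (Finset.Icc 1 N), f i := by
        apply Finset.sum_le_sum_of_subset_of_nonneg
        · intro i hi
          rw [Finset.mem_range] at hi
          rw [Finset.mem_insert, Finset.mem_Icc]
          omega
        · intro i _ _; exact hf0 i
    _ = f 0 + ∑ i ∈ Finset.Icc 1 N, f i := by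
        rw [Finset.sum_insert (by simp)]
    _ = ∑ i ∈ Finset.Icc 1 N, f i := by
        have : f 0 = 0 := by simp [hf]
        rw [this, zero_add]
    _ ≤ ∑ n ∈ Finset.Icc 1 N, Real.exp 3 * E *
          ((n : ℝ) ^ (-(1 + 1 / L)) * ‖cn lam (bq ps lam θ L β) n‖ ^ 2) := by
        apply Finset.sum_le_sum
        intro n hn
        exact hterm n (Finset.mem_Icc.mp hn).1
    _ = Real.exp 3 * E * ∑ n ∈ Finset.Icc 1 N,
          ((n : ℝ) ^ (-(1 + 1 / L)) * ‖cn lam (bq ps lam θ L β) n‖ ^ 2) := by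
        rw [Finset.mul_sum]
    _ ≤ Real.exp 3 * E * W := by
        apply mul_le_mul_of_nonneg_left (hS N) (by positivity)

/-- the dual sum -/
lemma second_sum (L T W : ℝ) (y : ℕ) (b : ℕ → ℂ) (hL1 : 1 ≤ L) (hT : 1 < T)
    (hTL : L = Real.log T) (hyT : (y : ℝ) ≤ T)
    (hS : ∀ X : ℕ, ∑ q ∈ Finset.Icc 1 X, ∑ a ∈ (Finset.Icc 1 X).filter (fun a => a.Coprime q),
      ((a : ℝ) * q) ^ (-(1 + 1 / L)) * ‖Gq y lam b q a‖ ^ 2 ≤ W) :
    DS y lam b T ≤ Real.exp 5 * W := by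
  have hT0 : 0 < T := by linarith
  unfold DS
  set f : ℕ → ℕ → ℝ := fun q a => if 1 ≤ a ∧ a.Coprime q then
    ‖Gq y lam b q a‖ ^ 2 / (a * q) * Real.exp (-(a / (4 * q * T))) else 0 with hf
  have hf0 : ∀ q a, 0 ≤ f q a := by
    intro q a
    simp only [hf]
    split_ifs
    · positivity
    · exact le_rfl
  have hterm : ∀ q a : ℕ, 1 ≤ q → q ≤ y → 1 ≤ a → a.Coprime q →
      f q a ≤ Real.exp 5 * (((a : ℝ) * q) ^ (-(1 + 1 / L)) * ‖Gq y lam b q a‖ ^ 2) := by
    intro q a hq hqy ha hco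
    have hq1 : (1 : ℝ) ≤ q := by exact_mod_cast hq
    have ha1 : (1 : ℝ) ≤ a := by exact_mod_cast ha
    have hq0 : (0 : ℝ) < q := by linarith
    have ha0 : (0 : ℝ) < a := by linarith
    have hqT : (q : ℝ) ≤ T := le_trans (by exact_mod_cast hqy) hyT
    simp only [hf]
    rw [if_pos ⟨ha, hco⟩]
    have hlq : Real.log q ≤ L := by
      rw [hTL]
      exact Real.log_le_log hq0 hqT
    have h3 : Real.exp (-(a / (4 * q * T))) ≤ Real.exp 5 * ((a : ℝ) * q) ^ (-(1 / L)) := by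
      apply exp_cut L _ _ 5 hL1 (by nlinarith) (by positivity)
      have h4 := Real.log_le_sub_one_of_pos (x := (a : ℝ) / (4 * q * T)) (by positivity)
      rw [Real.log_div ha0.ne' (by positivity), Real.log_mul (by positivity) hT0.ne',
        Real.log_mul (by norm_num) hq0.ne'] at h4
      rw [Real.log_mul ha0.ne' hq0.ne']
      have h5 : Real.log 4 ≤ 2 := by
        have h6 : (4 : ℝ) = 2 ^ 2 := by norm_num
        rw [h6, Real.log_pow]
        have := Real.log_two_lt_d9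
        push_cast
        linarith
      rw [← hTL] at h4
      linarith
    have h5 : ((a : ℝ) * q) ^ (-(1 + 1 / L)) = ((a : ℝ) * q)⁻¹ * ((a : ℝ) * q) ^ (-(1 / L)) := by
      rw [← Real.rpow_neg_one, ← Real.rpow_add (by positivity)]
      congr 1
      ring
    rw [h5]
    calc ‖Gq y lam b q a‖ ^ 2 / (a * q) * Real.exp (-(a / (4 * q * T)))
        ≤ ‖Gq y lam b q a‖ ^ 2 / (a * q) * (Real.exp 5 * ((a : ℝ) * q) ^ (-(1 / L))) := by gcongr
      _ = _ := by
        rw [div_eq_mul_inv]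
        ring
  -- partial sums
  have hpart : ∀ N : ℕ, ∑ q ∈ Finset.Icc 1 y, ∑ a ∈ Finset.range N, f q a ≤ Real.exp 5 * W := by
    intro N
    set X := max N y with hX
    calc ∑ q ∈ Finset.Icc 1 y, ∑ a ∈ Finset.range N, f q a
        ≤ ∑ q ∈ Finset.Icc 1 y, ∑ a ∈ (Finset.Icc 1 X).filter (fun a => a.Coprime q), f q a := by
          refine Finset.sum_le_sum fun q _ => ?_
          rw [← Finset.sum_filter_add_sum_filter_not (Finset.range N)
            (fun a => 1 ≤ a ∧ a.Coprime q)]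
          have hz : ∑ a ∈ (Finset.range N).filter (fun a => ¬ (1 ≤ a ∧ a.Coprime q)), f q a = 0 := by
            refine Finset.sum_eq_zero fun a ha => ?_
            rw [Finset.mem_filter] at ha
            simp only [hf]
            rw [if_neg ha.2]
          rw [hz, add_zero]
          apply Finset.sum_le_sum_of_subset_of_nonneg
          · intro a ha
            rw [Finset.mem_filter, Finset.mem_range] at ha
            rw [Finset.mem_filter, Finset.mem_Icc]
            have : N ≤ X := le_max_left _ _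
            exact ⟨⟨ha.2.1, by omega⟩, ha.2.2⟩
          · intro a _ _
            exact hf0 q a
      _ ≤ ∑ q ∈ Finset.Icc 1 y, ∑ a ∈ (Finset.Icc 1 X).filter (fun a => a.Coprime q),
            Real.exp 5 * (((a : ℝ) * q) ^ (-(1 + 1 / L)) * ‖Gq y lam b q a‖ ^ 2) := by
          refine Finset.sum_le_sum fun q hq => Finset.sum_le_sum fun a ha => ?_
          rw [Finset.mem_Icc] at hq
          rw [Finset.mem_filter, Finset.mem_Icc] at ha
          exact hterm q a hq.1 hq.2 ha.1.1 ha.2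
      _ ≤ ∑ q ∈ Finset.Icc 1 X, ∑ a ∈ (Finset.Icc 1 X).filter (fun a => a.Coprime q),
            Real.exp 5 * (((a : ℝ) * q) ^ (-(1 + 1 / L)) * ‖Gq y lam b q a‖ ^ 2) := by
          apply Finset.sum_le_sum_of_subset_of_nonneg
          · apply Finset.Icc_subset_Icc_right
            exact le_max_right _ _
          · intro q _ _
            exact Finset.sum_nonneg fun a _ => by positivity
      _ = Real.exp 5 * ∑ q ∈ Finset.Icc 1 X, ∑ a ∈ (Finset.Icc 1 X).filter (fun a => a.Coprime q),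
            (((a : ℝ) * q) ^ (-(1 + 1 / L)) * ‖Gq y lam b q a‖ ^ 2) := by
          rw [Finset.mul_sum]
          refine Finset.sum_congr rfl fun q _ => ?_
          rw [Finset.mul_sum]
      _ ≤ Real.exp 5 * W := mul_le_mul_of_nonneg_left (hS X) (Real.exp_pos _).le
  have hsum : ∀ q ∈ Finset.Icc 1 y, Summable (f q) := by
    intro q hq
    apply summable_of_sum_range_le (hf0 q) (c := Real.exp 5 * W)
    intro N
    refine le_trans ?_ (hpart N)
    exact Finset.single_le_sum (f := fun q => ∑ a ∈ Finset.range N, f q a)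
      (fun q _ => Finset.sum_nonneg fun a _ => hf0 q a) hq
  rw [← Summable.tsum_finsetSum hsum]
  apply Real.tsum_le_of_sum_range_le (fun a => Finset.sum_nonneg fun q _ => hf0 q a)
  intro N
  rw [Finset.sum_comm]
  exact hpart N

lemma third_sum {th C : ℝ} (hth0 : 0 ≤ th) (hth : th < 1 / 2)
    (hmf : ∀ n : ℕ, 1 ≤ n → ‖mf ps lam n‖ ≤ C * (n : ℝ) ^ th) (θ L : ℝ) (y : ℕ) (β : ℂ)
    (hβ : ‖β‖ ≤ 1) :
    ∑ h ∈ Finset.Icc 1 y, ‖bq ps lam θ L β h‖ ^ 2 ≤ C ^ 2 * (y : ℝ) ^ 5 := by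
  have hC : 0 ≤ C := by
    have := (norm_nonneg _).trans (hmf 1 le_rfl)
    simpa using this
  calc ∑ h ∈ Finset.Icc 1 y, ‖bq ps lam θ L β h‖ ^ 2
      ≤ ∑ h ∈ Finset.Icc 1 y, (C * (y : ℝ) ^ 2) ^ 2 := by
        apply Finset.sum_le_sum
        intro h hh
        have h1 := norm_bq_le hth0 hth hmf θ L β hβ h (Finset.mem_Icc.mp hh).1
        have h2 : (h : ℝ) ≤ y := by exact_mod_cast (Finset.mem_Icc.mp hh).2
        apply pow_le_pow_left₀ (norm_nonneg _) (h1.trans _)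
        gcongr
    _ = C ^ 2 * (y : ℝ) ^ 5 := by
        rw [Finset.sum_const, Nat.card_Icc, nsmul_eq_mul]
        simp only [add_tsub_cancel_right]
        ring

lemma MM_shift (θ L : ℝ) (β s : ℂ) (y : ℕ) :
    MM y (bq ps lam θ L β) s = MM y (bq ps lam θ L 0) (s + β) := by
  unfold MM
  apply Finset.sum_congr rfl
  intro h hh
  have hpos : (h : ℂ) ≠ 0 := by
    have := (Finset.mem_Icc.mp hh).1
    exact_mod_cast (by omega : h ≠ 0)
  unfold bq
  rw [neg_zero, Complex.cpow_zero, mul_one, mul_assoc, ← Complex.cpow_add _ _ hpos]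
  congr 2
  ring

/-- The common bound. -/
lemma core {k N : ℕ} {F : ℂ → ℂ} (hF : Frm k N ps lam) (hIL : IsL lam F) (h1 : S_SAN)
    (h0 : S_MF) (h2 : S_MO1) (h3 : S_MO2) :
    ∃ θ0 : ℝ, 0 < θ0 ∧ θ0 ≤ 1 / 200 ∧ ∀ θ : ℝ, 0 < θ → θ ≤ θ0 →
    ∃ C T0 : ℝ, 0 < C ∧ 2 ≤ T0 ∧ ∀ (T σ E : ℝ) (β : ℂ), T0 ≤ T → 1 / 2 ≤ σ → σ ≤ 3 / 2 →
      ‖β‖ ≤ 1 → Real.exp (-(θ * (σ - 1 / 2) * Real.log T)) ≤ E →
      (∀ n : ℕ, 2 ≤ n → cn lam (bq ps lam θ (Real.log T) β) n ≠ 0 →
        (n : ℝ) ^ (-(2 * σ - 1)) ≤ E) →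
      ∫ t in (T / 4)..(4 * T), ‖F ((σ : ℂ) + t * I) *
        MM (yT θ T) (bq ps lam θ (Real.log T) β) ((σ : ℂ) + t * I) - 1‖ ^ 2 ≤
        C * T * E * ((1 + Real.log T * ‖β‖) ^ 20 * Real.exp (2 * θ * Real.log T * ‖β‖)) := by
  obtain ⟨c, C0, A, T00, hc, hC0, hA, hT00, h1⟩ := h1 k N ps lam F hF hIL
  obtain ⟨-, -, ⟨th, Cm, hth0, hth, hmf⟩, -⟩ := h0 k N ps lam hF
  have hCm : 0 ≤ Cm := by
    have := (norm_nonneg _).trans (hmf 1 le_rfl)
    simpa using this
  refine ⟨min (1 / 200) (min (1 / (2 * A)) (c / (4 * (A + 5)))), by positivity, min_le_left _ _,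
    fun θ hθ hθ' => ?_⟩
  have hθ1 : θ ≤ 1 / 200 := hθ'.trans (min_le_left _ _)
  have hθ2 : θ * A ≤ 1 / 2 := by
    have : θ ≤ 1 / (2 * A) := hθ'.trans ((min_le_right _ _).trans (min_le_left _ _))
    rw [le_div_iff₀ (by positivity)] at this
    linarith
  have hθ3 : θ * (A + 5) ≤ c / 4 := by
    have : θ ≤ c / (4 * (A + 5)) := hθ'.trans ((min_le_right _ _).trans (min_le_right _ _))
    rw [le_div_iff₀ (by positivity)] at this
    linarith
  obtain ⟨C1, hC1, h2⟩ := h2 k N ps lam hF θ hθ (by linarith)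
  obtain ⟨C2, hC2, h3⟩ := h3 k N ps lam hF θ hθ (by linarith)
  set K := Cm ^ 2 * 2 ^ (A + 5) with hK
  have hK0 : 0 ≤ K := by positivity
  refine ⟨C0 * (Real.exp 3 * C1 + Real.exp 5 * C2 + K), max (max T00 3) (max (4 ^ A) C0),
    by positivity, ?_, ?_⟩
  · exact le_trans (by norm_num) ((le_max_right _ _).trans (le_max_left _ _) : (3 : ℝ) ≤ _)
  intro T σ E β hT hσ hσ' hβ hE hcc
  have hTa : T00 ≤ T := ((le_max_left _ _).trans (le_max_left _ _)).trans hT
  have hTb : 3 ≤ T := ((le_max_right _ _).trans (le_max_left _ _)).trans hT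
  have hTc : (4 : ℝ) ^ A ≤ T := ((le_max_left _ _).trans (le_max_right _ _)).trans hT
  have hTd : C0 ≤ T := ((le_max_right _ _).trans (le_max_right _ _)).trans hT
  have hT1 : 1 < T := by linarith
  have hT0 : 0 < T := by linarith
  set y := yT θ T with hy
  set L := Real.log T with hL
  have hL1 : 1 ≤ L := by
    rw [hL, Real.le_log_iff_exp_le hT0]
    have := Real.exp_one_lt_d9
    linarith
  have hE0 : 0 < E := lt_of_lt_of_le (Real.exp_pos _) hE
  have hTθ : 1 ≤ T ^ θ := Real.one_le_rpow hT1.le hθ.le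
  have hyθ : T ^ θ ≤ y := Nat.le_ceil _
  have hy1' : (1 : ℝ) ≤ y := hTθ.trans hyθ
  have hy1 : 1 ≤ y := by exact_mod_cast hy1'
  have hy2 : (y : ℝ) ≤ 2 * T ^ θ := by
    have := (Nat.ceil_lt_add_one (a := T ^ θ) (by positivity)).le
    rw [hy]
    unfold yT
    linarith
  have hyA : (y : ℝ) ^ A ≤ T := by
    calc (y : ℝ) ^ A ≤ (2 * T ^ θ) ^ A := Real.rpow_le_rpow (by positivity) hy2 (by linarith)
      _ = 2 ^ A * T ^ (θ * A) := by
          rw [Real.mul_rpow (by norm_num) (by positivity), ← Real.rpow_mul hT0.le]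
      _ ≤ 2 ^ A * T ^ (1 / 2 : ℝ) := by
          apply mul_le_mul_of_nonneg_left _ (by positivity)
          exact Real.rpow_le_rpow_of_exponent_le hT1.le hθ2
      _ ≤ T ^ (1 / 2 : ℝ) * T ^ (1 / 2 : ℝ) := by
          apply mul_le_mul_of_nonneg_right _ (by positivity)
          have h4 : (2 : ℝ) ^ A = ((4 : ℝ) ^ A) ^ (1 / 2 : ℝ) := by
            rw [← Real.rpow_mul (by norm_num), mul_comm A, Real.rpow_mul (by norm_num)]
            congr 1
            rw [← Real.sqrt_eq_rpow]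
            rw [show (4 : ℝ) = 2 ^ 2 by norm_num, Real.sqrt_sq (by norm_num)]
          rw [h4]
          exact Real.rpow_le_rpow (by positivity) hTc (by norm_num)
      _ = T := by
          rw [← Real.rpow_add hT0]
          norm_num
  have hyT : (y : ℝ) ≤ T := by
    calc (y : ℝ) = (y : ℝ) ^ (1 : ℝ) := (Real.rpow_one _).symm
      _ ≤ (y : ℝ) ^ A := Real.rpow_le_rpow_of_exponent_le hy1' hA
      _ ≤ T := hyA
  have hyA1 : 1 ≤ (y : ℝ) ^ A := Real.one_le_rpow hy1' (by linarith)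
  set W := (1 + L * ‖β‖) ^ 20 * Real.exp (2 * θ * L * ‖β‖) with hW
  have hW1 : 1 ≤ W := by
    rw [hW]
    have ha : (1 : ℝ) ≤ (1 + L * ‖β‖) ^ 20 := by
      apply one_le_pow₀
      have : 0 ≤ L * ‖β‖ := by positivity
      linarith
    have hb : 1 ≤ Real.exp (2 * θ * L * ‖β‖) := by
      apply Real.one_le_exp
      positivity
    exact one_le_mul_of_one_le_of_one_le ha hb
  have hb1 : bq ps lam θ L β 1 = 1 := bq_one θ L β
  have hSAN := h1 T σ y (bq ps lam θ L β) hTa hy1 hyA hσ hσ'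
    (fun h hh => bq_zero θ T β hθ hT1 h hh)
  rw [hb1] at hSAN
  refine hSAN.trans ?_
  -- first sum
  have hF := first_sum (ps := ps) (lam := lam) θ L (C0 * T * (y : ℝ) ^ A) σ E (C1 * W) β
    (by positivity) (by
      have h4 : C0 * T * (y : ℝ) ^ A ≤ T ^ 3 := by
        calc C0 * T * (y : ℝ) ^ A ≤ T * T * T := by gcongr
          _ = T ^ 3 := by ring
      have h5 := Real.log_le_log (by positivity) h4
      rw [Real.log_pow] at h5
      push_cast at h5
      exact h5) hL1 hE0.le hcc (by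
    intro X
    have := h2 L β X hL1
    rw [hW]
    calc _ ≤ _ := this
      _ = _ := by ring)
  -- second sum
  have hexp : Real.exp (θ * L) ≤ y := by
    have : Real.exp (θ * L) = T ^ θ := by
      rw [Real.rpow_def_of_pos hT0, mul_comm]
    rw [this]; exact hyθ
  have hS := second_sum (lam := lam) L T (C2 * W) y (bq ps lam θ L β) hL1 hT1 rfl hyT (by
    intro X
    have := h3 L β X y hL1 hexp
    rw [hW]
    calc _ ≤ _ := this
      _ = _ := by ring)
  have hTpow : T ^ (1 - 2 * σ) ≤ E := by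
    refine le_trans ?_ hE
    rw [Real.rpow_def_of_pos hT0, ← hL]
    apply Real.exp_le_exp.mpr
    have h4 : 0 ≤ L * (σ - 1 / 2) := mul_nonneg (by linarith) (by linarith)
    have h5 : θ * (L * (σ - 1 / 2)) ≤ 1 * (L * (σ - 1 / 2)) :=
      mul_le_mul_of_nonneg_right (by linarith) h4
    linarith
  -- third sum
  have hTh := third_sum hth0 hth hmf θ L y β hβ
  have hy3 : T ^ (-c) * (y : ℝ) ^ A * (Cm ^ 2 * (y : ℝ) ^ 5) ≤ K * E := by
    have e1 : (y : ℝ) ^ A * (y : ℝ) ^ 5 = (y : ℝ) ^ (A + 5) := by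
      rw [Real.rpow_add (by linarith)]
      congr 1
      rw [← Real.rpow_natCast]
      norm_num
    have e2 : (y : ℝ) ^ (A + 5) ≤ 2 ^ (A + 5) * T ^ (c / 4) := by
      calc (y : ℝ) ^ (A + 5) ≤ (2 * T ^ θ) ^ (A + 5) :=
            Real.rpow_le_rpow (by positivity) hy2 (by linarith)
        _ = 2 ^ (A + 5) * T ^ (θ * (A + 5)) := by
            rw [Real.mul_rpow (by norm_num) (by positivity), ← Real.rpow_mul hT0.le]
        _ ≤ 2 ^ (A + 5) * T ^ (c / 4) := by
            apply mul_le_mul_of_nonneg_left _ (by positivity)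
            exact Real.rpow_le_rpow_of_exponent_le hT1.le hθ3
    have e3 : T ^ (-c) * T ^ (c / 4) ≤ E := by
      refine le_trans ?_ hE
      rw [← Real.rpow_add hT0, Real.rpow_def_of_pos hT0, ← hL]
      apply Real.exp_le_exp.mpr
      have h6 : θ ≤ c / 4 := by
        have h6' : θ * 1 ≤ θ * (A + 5) := mul_le_mul_of_nonneg_left (by linarith) hθ.le
        linarith
      have h7 : θ * (σ - 1 / 2) ≤ c / 4 := by
        have h7' : θ * (σ - 1 / 2) ≤ θ * 1 := mul_le_mul_of_nonneg_left (by linarith) hθ.le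
        linarith
      have h8 : θ * (σ - 1 / 2) * L ≤ c / 4 * L :=
        mul_le_mul_of_nonneg_right h7 (by linarith)
      have h9 : 0 ≤ c * L := mul_nonneg hc.le (by linarith)
      linarith
    calc T ^ (-c) * (y : ℝ) ^ A * (Cm ^ 2 * (y : ℝ) ^ 5)
        = Cm ^ 2 * (T ^ (-c) * ((y : ℝ) ^ A * (y : ℝ) ^ 5)) := by ring
      _ = Cm ^ 2 * (T ^ (-c) * (y : ℝ) ^ (A + 5)) := by rw [e1]
      _ ≤ Cm ^ 2 * (T ^ (-c) * (2 ^ (A + 5) * T ^ (c / 4))) := by gcongr
      _ = Cm ^ 2 * 2 ^ (A + 5) * (T ^ (-c) * T ^ (c / 4)) := by ring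
      _ ≤ Cm ^ 2 * 2 ^ (A + 5) * E := by gcongr
      _ = K * E := by rw [hK]
  have hthird : T ^ (-c) * (y : ℝ) ^ A * ∑ h ∈ Finset.Icc 1 y, ‖bq ps lam θ L β h‖ ^ 2 ≤
      K * E * W := by
    calc _ ≤ T ^ (-c) * (y : ℝ) ^ A * (Cm ^ 2 * (y : ℝ) ^ 5) := by
          apply mul_le_mul_of_nonneg_left hTh (by positivity)
      _ ≤ K * E := hy3
      _ = K * E * 1 := by ring
      _ ≤ K * E * W := by apply mul_le_mul_of_nonneg_left hW1 (by positivity)
  have hDS0 : 0 ≤ DS y lam (bq ps lam θ L β) T := by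
    unfold DS
    refine Finset.sum_nonneg fun q _ => tsum_nonneg fun a => ?_
    split_ifs
    · positivity
    · exact le_rfl
  have hsecond : T ^ (1 - 2 * σ) * DS y lam (bq ps lam θ L β) T ≤
      E * (Real.exp 5 * (C2 * W)) := mul_le_mul hTpow hS hDS0 hE0.le
  calc _ ≤ C0 * T * (Real.exp 3 * E * (C1 * W) + E * (Real.exp 5 * (C2 * W)) + K * E * W) := by
        apply mul_le_mul_of_nonneg_left _ (by positivity)
        exact add_le_add (add_le_add hF hsecond) hthird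
    _ = C0 * (Real.exp 3 * C1 + Real.exp 5 * C2 + K) * T * E * W := by ring

theorem mv1 (h : S_SAN) (h0 : S_MF) (h1 : S_MO1) (h2 : S_MO2) : S_MV1 := by
  intro k N ps lam F hF hIL
  obtain ⟨θ0, hθ0, hθ01, hco⟩ := core hF hIL h h0 h1 h2
  refine ⟨θ0, hθ0, hθ01, fun θ hθ hθ' => ?_⟩
  obtain ⟨C, T0, hC, hT0, hco⟩ := hco θ hθ hθ'
  obtain ⟨-, hmf, -, -⟩ := h0 k N ps lam hF
  refine ⟨C, T0, hC, hT0, ?_⟩
  intro T σ hT hσ hσ'
  have hT1 : 1 < T := by linarith
  have hTp : 0 < T := by linarith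
  have hL : 0 < Real.log T := Real.log_pos hT1
  have := hco T σ (Real.exp (-(θ * (σ - 1 / 2) * Real.log T))) 0 hT hσ hσ' (by simp) le_rfl (by
    intro n hn hc
    have hlt : T ^ (θ / 2) < n := by
      by_contra hle
      push Not at hle
      exact hc (cn_zero hmf θ T hθ hT1 n hn hle)
    have hn0 : (0 : ℝ) < n := by positivity
    calc (n : ℝ) ^ (-(2 * σ - 1)) ≤ (T ^ (θ / 2)) ^ (-(2 * σ - 1)) := by
          apply Real.rpow_le_rpow_of_nonpos (by positivity) hlt.le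
          linarith
      _ = Real.exp (-(θ * (σ - 1 / 2) * Real.log T)) := by
          rw [← Real.rpow_mul hTp.le, Real.rpow_def_of_pos hTp]
          congr 1
          ring)
  unfold mT
  refine this.trans (le_of_eq ?_)
  simp

theorem mv2 (h : S_SAN) (h0 : S_MF) (h1 : S_MO1) (h2 : S_MO2) : S_MV2 := by
  intro k N ps lam F hF hIL
  obtain ⟨θ0, hθ0, hθ01, hco⟩ := core hF hIL h h0 h1 h2
  refine ⟨θ0, hθ0, hθ01, fun θ hθ hθ' => ?_⟩
  obtain ⟨C, T0, hC, hT0, hco⟩ := hco θ hθ hθ'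
  refine ⟨2 * C + 8, T0, by positivity, hT0, ?_⟩
  intro T σ β hT hσ hσ' hβ
  have hT1 : 1 < T := by linarith
  have hTp : 0 < T := by linarith
  have hL : 0 < Real.log T := Real.log_pos hT1
  have hcore := hco T σ 1 β hT hσ hσ' hβ (by
    apply Real.exp_le_one_iff.mpr
    have : 0 ≤ θ * (σ - 1 / 2) * Real.log T := by
      apply mul_nonneg (mul_nonneg hθ.le (by linarith)) hL.le
    linarith) (by
    intro n hn hc
    have hn1 : (1 : ℝ) ≤ n := by exact_mod_cast (by omega : 1 ≤ n)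
    calc (n : ℝ) ^ (-(2 * σ - 1)) ≤ (n : ℝ) ^ (0 : ℝ) := by
          apply Real.rpow_le_rpow_of_exponent_le hn1
          linarith
      _ = 1 := Real.rpow_zero _)
  set W := (1 + Real.log T * ‖β‖) ^ 20 * Real.exp (2 * θ * Real.log T * ‖β‖) with hW
  have hW1 : 1 ≤ W := by
    rw [hW]
    have ha : (1 : ℝ) ≤ (1 + Real.log T * ‖β‖) ^ 20 := by
      apply one_le_pow₀
      have : 0 ≤ Real.log T * ‖β‖ := by positivity
      linarith
    have hb : 1 ≤ Real.exp (2 * θ * Real.log T * ‖β‖) := by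
      apply Real.one_le_exp
      positivity
    exact one_le_mul_of_one_le_of_one_le ha hb
  set G : ℝ → ℂ := fun t => F ((σ : ℂ) + t * I) *
        MM (yT θ T) (bq ps lam θ (Real.log T) β) ((σ : ℂ) + t * I) with hG
  have hGc : Continuous G := by
    refine Continuous.mul ?_ (MM_cont σ _ _)
    exact hIL.diff.continuous.comp (by fun_prop)
  have hI1 : IntervalIntegrable (fun t => ‖G t‖ ^ 2) volume (T / 4) (4 * T) :=
    (hGc.norm.pow 2).intervalIntegrable _ _
  have hI2 : IntervalIntegrable (fun t => ‖G t - 1‖ ^ 2) volume (T / 4) (4 * T) :=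
    ((hGc.sub continuous_const).norm.pow 2).intervalIntegrable _ _
  have hpt : ∀ t ∈ Set.Icc (T / 4) (4 * T), ‖G t‖ ^ 2 ≤ 2 * ‖G t - 1‖ ^ 2 + 2 := by
    intro t _
    have h5 : ‖G t‖ ≤ ‖G t - 1‖ + 1 := by
      calc ‖G t‖ = ‖(G t - 1) + 1‖ := by ring_nf
        _ ≤ ‖G t - 1‖ + ‖(1 : ℂ)‖ := norm_add_le _ _
        _ = _ := by simp
    have h6 := norm_nonneg (G t)
    nlinarith [sq_nonneg (‖G t - 1‖ - 1)]
  have hmono : ∫ t in (T / 4)..(4 * T), ‖G t‖ ^ 2 ≤
      ∫ t in (T / 4)..(4 * T), (2 * ‖G t - 1‖ ^ 2 + 2) := by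
    apply intervalIntegral.integral_mono_on (by linarith) hI1 _ hpt
    exact (hI2.const_mul 2).add intervalIntegrable_const
  have heq : ∫ t in (T / 4)..(4 * T), (2 * ‖G t - 1‖ ^ 2 + 2) =
      2 * (∫ t in (T / 4)..(4 * T), ‖G t - 1‖ ^ 2) + (4 * T - T / 4) * 2 := by
    rw [intervalIntegral.integral_add (hI2.const_mul 2) intervalIntegrable_const,
      intervalIntegral.integral_const_mul, intervalIntegral.integral_const]
    simp
  have hfun : ∀ t : ℝ, ‖F ((σ : ℂ) + t * I) * mT ps lam θ T ((σ : ℂ) + t * I + β)‖ ^ 2 =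
      ‖G t‖ ^ 2 := by
    intro t
    simp only [hG]
    unfold mT
    rw [MM_shift θ (Real.log T) β ((σ : ℂ) + t * I)]
  calc ∫ t in (T / 4)..(4 * T), ‖F ((σ : ℂ) + t * I) * mT ps lam θ T ((σ : ℂ) + t * I + β)‖ ^ 2
      = ∫ t in (T / 4)..(4 * T), ‖G t‖ ^ 2 := by
        apply intervalIntegral.integral_congr
        intro t _
        exact hfun t
    _ ≤ 2 * (∫ t in (T / 4)..(4 * T), ‖G t - 1‖ ^ 2) + (4 * T - T / 4) * 2 := by
        rw [← heq]; exact hmono
    _ ≤ 2 * (C * T * 1 * W) + 8 * T := by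
        have : ∫ t in (T / 4)..(4 * T), ‖G t - 1‖ ^ 2 ≤ C * T * 1 * W := hcore
        linarith
    _ ≤ (2 * C + 8) * T * W := by nlinarith
    _ = _ := by rw [hW]; ring

end Pool.Agent.Y157.GL
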